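import Pool.Agent.Lib.IC4.Glue
import Pool.Agent.Lib.IC4.EX
import Pool.Agent.Lib.IC4.BAL
import Pool.Agent.Lib.IC4.SEL81
import Pool.Agent.Lib.IC4.LOC74
import Pool.Agent.Lib.IC4.PAR
import Pool.Agent.Lib.IC4.MINW
import Pool.Agent.Lib.IC4.TOG2
import Pool.Agent.Lib.IC4.COL2

/-! Every bipartite multigraph of maximum degree at most four is interval colourable. -/

namespace Pool.Agent.Results.MP_fb9257_co.MaxDegFour
open Pool.Agent.Lib.IC34 Pool.Agent.Lib.IC4

theorem result {V E : Type*} [Fintype V] [Fintype E] [DecidableEq V]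
    (ends : E → Sym2 V) (side : V → Prop)
    (hb : ∀ e, ∃ x y, ends e = s(x, y) ∧ side x ∧ ¬ side y) (hd : ∀ w, mdeg ends w ≤ 4) :
    ∃ c, IsIntervalColoring ends c :=
  final_of_blocks stEX stBAL (stSEL81 stLOC74) stPAR stMINW stTOG2 stCOL2 ends side hb hd

end Pool.Agent.Results.MP_fb9257_co.MaxDegFour
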